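import Pool.Agent.Helper43.AX.St

set_option autoImplicit false

namespace Pool.Agent.Helper66.AX

open Pool.Agent.Helper43.AX

theorem hXP : StXP := by
  intro m L _ x σ hx hσ
  have h1 : ∀ j : ℕ, (σ^[j]) x = x + (j : L) := by
    intro j
    induction j with
    | zero => simp
    | succ j ih =>
      rw [Function.iterate_succ_apply', ih, map_add, hσ, map_natCast]
      push_cast
      ring
  have h2 : ∀ j : ℕ, (σ.symm^[j]) x = x - (j : L) := by
    have hs : σ.symm x = x - 1 := by
      rw [RingEquiv.symm_apply_eq, map_sub, hσ, map_one]
      ring
    intro j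
    induction j with
    | zero => simp
    | succ j ih =>
      rw [Function.iterate_succ_apply', ih, map_sub, hs, map_natCast]
      push_cast
      ring
  have h3 : ∀ j : ℕ, (x + (j : L)) ^ m = x + (j : L) + 1 := by
    intro j
    induction j with
    | zero => simpa using hx
    | succ j ih =>
      have := congrArg σ ih
      rw [map_pow, map_add, map_add, map_add, hσ, map_natCast, map_one] at this
      push_cast
      rw [show x + ((j : L) + 1) = x + 1 + (j : L) by ring, this]
  have h4 : ∀ j : ℕ, x ^ (m ^ j) = x + (j : L) := by
    intro j
    induction j with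
    | zero => simp
    | succ j ih =>
      rw [pow_succ, pow_mul, ih, h3]
      push_cast
      ring
  intro j
  exact ⟨h4 j, h1 j, h2 j, h3 j⟩

end Pool.Agent.Helper66.AX
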