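import Pool.Agent.Helper43.AX.St

set_option autoImplicit false

namespace Pool.Agent.Helper66.AX

open Pool.Agent.Helper43.AX Pool.Agent.Helper43.GD

theorem LB_step {p : ℕ} (hp : p.Prime) {L : Type} [CommRing L] [CharP L p] (x : L)
    (h1 : x ^ (p ^ 2) = x + 1) (h2 : x ^ (p ^ p) = x) (h : ℕ) (hh : p = 2 * h + 1) :
    x ^ p = x - (h : L) := by
  haveI : Fact p.Prime := ⟨hp⟩
  have h3 : ∀ j : ℕ, x ^ (p ^ (2 * j)) = x + (j : L) := by
    intro j
    induction j with
    | zero => simp
    | succ j ih =>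
      rw [show 2 * (j + 1) = 2 * j + 2 by ring, pow_add, pow_mul, ih]
      have e1 : (x + (j : L)) ^ (p ^ 2) = x ^ (p ^ 2) + (j : L) ^ (p ^ 2) :=
        add_pow_char_pow x (j : L) p 2
      have e2 : (j : L) ^ (p ^ 2) = (j : L) := by
        have := map_natCast (iterateFrobenius L p 2) j
        rwa [iterateFrobenius_def] at this
      rw [e1, e2, h1]
      push_cast
      ring
  have h4 : x ^ (p ^ p) = x ^ p + (h : L) := by
    have e0 : p ^ p = p ^ (2 * h) * p := by
      conv_lhs => rw [show p ^ p = p ^ (2 * h + 1) from by rw [← hh]]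
      rw [pow_succ]
    rw [e0, pow_mul, h3 h]
    have e1 : (x + (h : L)) ^ p = x ^ p + (h : L) ^ p := add_pow_char x (h : L) p
    have e2 : (h : L) ^ p = (h : L) := by
      have := map_natCast (frobenius L p) h
      rwa [frobenius_def] at this
    rw [e1, e2]
  rw [h2] at h4
  linear_combination (-1 : L) * h4

theorem LB_span {p : ℕ} (hp : p.Prime) (h5 : 5 ≤ p) {L : Type} [CommRing L] [CharP L p] (x : L)
    (hg : Gn x) (h : ℕ) (hx : x ^ p = x - (h : L)) :
    Finite L ∧ Nat.card L ≤ p ^ p := by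
  haveI : Fact p.Prime := ⟨hp⟩
  letI : Algebra (ZMod p) L := ZMod.algebra L p
  obtain ⟨S, hS⟩ : ∃ S : Submodule (ZMod p) L, S = Submodule.span (ZMod p)
    (Set.range fun i : Fin p => x ^ (i : ℕ)) := ⟨_, rfl⟩
  have hmem : ∀ i : ℕ, i < p → x ^ i ∈ S := by
    intro i hi
    rw [hS]
    exact Submodule.subset_span ⟨⟨i, hi⟩, rfl⟩
  have h1 : (1 : L) ∈ S := by
    have := hmem 0 (by omega)
    simpa using this
  have hst : ∀ y ∈ S, x * y ∈ S := by
    intro y hy
    rw [hS] at hy
    induction hy using Submodule.span_induction with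
    | mem z hz =>
      obtain ⟨i, rfl⟩ := hz
      show x * x ^ (i : ℕ) ∈ S
      rw [← pow_succ']
      by_cases hi : (i : ℕ) + 1 < p
      · exact hmem _ hi
      · have : (i : ℕ) + 1 = p := by have := i.2; omega
        rw [this, hx]
        refine S.sub_mem ?_ ?_
        · simpa using hmem 1 (by omega)
        · rw [← nsmul_one]
          exact S.toAddSubmonoid.nsmul_mem h1 h
    | zero => simp
    | add u v _ _ hu hv => rw [mul_add]; exact S.add_mem hu hv
    | smul c u _ hu => rw [mul_smul_comm]; exact S.smul_mem _ hu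
  have htop : ∀ y : L, y ∈ S := fun y => hg S.toAddSubgroup h1 hst y
  have hsurj : Function.Surjective
      (Fintype.linearCombination (ZMod p) (fun i : Fin p => x ^ (i : ℕ))) := by
    intro y
    have := htop y
    rw [hS, ← Fintype.range_linearCombination] at this
    exact this
  haveI : Finite L := Finite.of_surjective _ hsurj
  refine ⟨inferInstance, ?_⟩
  have := Nat.card_le_card_of_surjective _ hsurj
  simpa using this

theorem hLB : StLB := by
  intro p hp h5 L _ x hc h1 h2 hg
  rcases subsingleton_or_nontrivial L with hs | hn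
  · exact Or.inl hs
  right
  haveI : Fact p.Prime := ⟨hp⟩
  haveI : CharP L p := (CharP.charP_iff_prime_eq_zero hp).2 hc
  obtain ⟨h, hh⟩ : ∃ h, p = 2 * h + 1 := by
    rcases hp.eq_two_or_odd' with h | h
    · omega
    · exact h
  have hxp := LB_step hp (x : L) h1 h2 h hh
  obtain ⟨hfin, hcard⟩ := LB_span hp h5 (x : L) hg h hxp
  obtain ⟨M, hM⟩ := Ideal.exists_maximal L
  letI : Field (L ⧸ M) := Ideal.Quotient.field M
  haveI : Finite (L ⧸ M) := Finite.of_surjective _ (Ideal.Quotient.mk_surjective (I := M))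
  haveI : Fintype (L ⧸ M) := Fintype.ofFinite _
  have hck : ((p : ℕ) : L ⧸ M) = 0 := by
    have := congrArg (Ideal.Quotient.mk M) hc
    rwa [map_natCast, map_zero] at this
  haveI : CharP (L ⧸ M) p := (CharP.charP_iff_prime_eq_zero hp).2 hck
  obtain ⟨d, hd, hcd⟩ := FiniteField.card (L ⧸ M) p
  obtain ⟨ξ, hξ⟩ : ∃ ξ : L ⧸ M, ξ = Ideal.Quotient.mk M (x : L) := ⟨_, rfl⟩
  have hξp : ξ ^ p = ξ - (h : L ⧸ M) := by
    rw [hξ, ← map_pow, hxp, map_sub, map_natCast]
  have hξi : ∀ i : ℕ, ξ ^ (p ^ i) = ξ - (i : L ⧸ M) * (h : L ⧸ M) := by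
    intro i
    induction i with
    | zero => simp
    | succ i ih =>
      rw [pow_succ, pow_mul, ih]
      have e1 : (ξ - (i : L ⧸ M) * (h : L ⧸ M)) ^ p = ξ ^ p - ((i : L ⧸ M) * (h : L ⧸ M)) ^ p :=
        sub_pow_char _ _
      have e2 : ((i : L ⧸ M) * (h : L ⧸ M)) ^ p = (i : L ⧸ M) * (h : L ⧸ M) := by
        have := map_natCast (frobenius (L ⧸ M) p) (i * h)
        rw [frobenius_def] at this
        push_cast at this
        exact this
      rw [e1, e2, hξp]
      push_cast
      ring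
  have hpd : p ∣ (d : ℕ) := by
    have e1 := FiniteField.pow_card ξ
    rw [hcd, hξi] at e1
    have e2 : (((d : ℕ) * h : ℕ) : L ⧸ M) = 0 := by
      push_cast
      linear_combination (-1 : L ⧸ M) * e1
    have e3 := (CharP.cast_eq_zero_iff (L ⧸ M) p _).1 e2
    rcases (Nat.Prime.dvd_mul hp).1 e3 with h3 | h3
    · exact h3
    · have := Nat.le_of_dvd (by omega) h3
      omega
  have hdp : p ≤ (d : ℕ) := Nat.le_of_dvd d.2 hpd
  have hck2 : p ^ p ≤ Nat.card (L ⧸ M) := by
    rw [Nat.card_eq_fintype_card, hcd]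
    exact Nat.pow_le_pow_right hp.pos hdp
  have hle : Nat.card (L ⧸ M) ≤ Nat.card L :=
    Nat.card_le_card_of_surjective _ (Ideal.Quotient.mk_surjective (I := M))
  have hbij : Function.Bijective (Ideal.Quotient.mk M) := by
    haveI : Fintype L := Fintype.ofFinite L
    rw [Fintype.bijective_iff_surjective_and_card]
    refine ⟨Ideal.Quotient.mk_surjective, ?_⟩
    rw [← Nat.card_eq_fintype_card, ← Nat.card_eq_fintype_card]
    omega
  refine ⟨hp, h5, hc, by omega, ?_, ?_, h1, hg⟩
  · intro y hy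
    have hy' : Ideal.Quotient.mk M y ≠ 0 := by
      intro h0
      exact hy (hbij.1 (by rw [h0, map_zero]))
    obtain ⟨z, hz⟩ := hbij.2 ((Ideal.Quotient.mk M y)⁻¹)
    refine IsUnit.of_mul_eq_one z (hbij.1 ?_)
    rw [map_mul, hz, map_one]
    exact mul_inv_cancel₀ hy'
  · intro y
    apply hbij.1
    rw [map_pow]
    have e1 := FiniteField.pow_card (Ideal.Quotient.mk M y)
    have e2 : Fintype.card (L ⧸ M) = p ^ p := by
      rw [← Nat.card_eq_fintype_card]
      omega
    rwa [e2] at e1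

end Pool.Agent.Helper66.AX
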